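import Pool.Agent.Helper26.UM.Stmts

/-! Row SB of project UM (MP_7e6c00_al): the category theorem of `Pool.Agent.Helper63.INV.Cat` for
functions into a type of the same universe, and the row. -/

set_option autoImplicit false

namespace Pool.Agent.Helper51.UM

open Cardinal Set

universe u v

section CatX

variable {X : Type u} {V : Type u}

/-- The graph `s` is functional. -/
def FnX (s : Set (X × V)) : Prop := ∀ x v w, (x, v) ∈ s → (x, w) ∈ s → v = w

/-- `g` extends the graph `s`. -/
def SatX (g : X → V) (s : Set (X × V)) : Prop := ∀ x v, (x, v) ∈ s → g x = v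

/-- small functional graphs -/
def CdX (s : Set (X × V)) : Prop := FnX s ∧ #s < #X

/-- nowhere dense sets -/
def NWDX (N : Set (X → V)) : Prop :=
  ∀ s : Set (X × V), CdX s → ∃ t, s ⊆ t ∧ CdX t ∧ ∀ g ∈ N, ¬ SatX g t

theorem SatX.mono {g : X → V} {s t : Set (X × V)} (h : SatX g t) (hst : s ⊆ t) : SatX g s :=
  fun x v hx => h x v (hst hx)

theorem FnX.mono {s t : Set (X × V)} (h : FnX t) (hst : s ⊆ t) : FnX s :=
  fun x v w h1 h2 => h x v w (hst h1) (hst h2)

theorem SatX.fn {g : X → V} {s : Set (X × V)} (h : SatX g s) : FnX s :=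
  fun x v w h1 h2 => (h x v h1).symm.trans (h x w h2)

theorem SatX.union {g : X → V} {s t : Set (X × V)} (h : SatX g s) (h' : SatX g t) :
    SatX g (s ∪ t) := by
  intro x v hx
  rcases hx with hx | hx
  · exact h x v hx
  · exact h' x v hx

theorem NWDX.mono {N M : Set (X → V)} (h : NWDX N) (hMN : M ⊆ N) : NWDX M := by
  intro s hs
  obtain ⟨t, h1, h2, h3⟩ := h s hs
  exact ⟨t, h1, h2, fun g hg => h3 g (hMN hg)⟩

theorem nwd_emptyX : NWDX (∅ : Set (X → V)) :=
  fun s hs => ⟨s, subset_rfl, hs, fun g hg => (Set.notMem_empty g hg).elim⟩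

theorem NWDX.union {N M : Set (X → V)} (h : NWDX N) (h' : NWDX M) : NWDX (N ∪ M) := by
  intro s hs
  obtain ⟨t, h1, h2, h3⟩ := h s hs
  obtain ⟨u, k1, k2, k3⟩ := h' t h2
  refine ⟨u, h1.trans k1, k2, fun g hg hgu => ?_⟩
  rcases hg with hg | hg
  · exact h3 g hg (hgu.mono k1)
  · exact k3 g hg hgu

theorem card_union_ltX (hX : ℵ₀ ≤ #X) {s t : Set (X × V)} (hs : #s < #X) (ht : #t < #X) :
    #(s ∪ t : Set (X × V)) < #X :=
  lt_of_le_of_lt (mk_union_le s t) (add_lt_of_lt hX hs ht)

/-- extension chosen to avoid one nowhere dense set -/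
noncomputable def extX (N : Set (X → V)) (hN : NWDX N) (s : Set (X × V)) : Set (X × V) := by
  classical
  exact if h : CdX s then Classical.choose (hN s h) else s

theorem subset_extX (N : Set (X → V)) (hN : NWDX N) (s : Set (X × V)) : s ⊆ extX N hN s := by
  unfold extX
  split_ifs with h
  · exact (Classical.choose_spec (hN s h)).1
  · exact subset_rfl

theorem cd_extX (N : Set (X → V)) (hN : NWDX N) (s : Set (X × V)) (h : CdX s) :
    CdX (extX N hN s) := by
  unfold extX
  rw [dif_pos h]
  exact (Classical.choose_spec (hN s h)).2.1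

theorem avoid_extX (N : Set (X → V)) (hN : NWDX N) (s : Set (X × V)) (h : CdX s) :
    ∀ g ∈ N, ¬ SatX g (extX N hN s) := by
  unfold extX
  rw [dif_pos h]
  exact (Classical.choose_spec (hN s h)).2.2

/-- Baire category theorem for regular `#X`. -/
theorem baireX [Nonempty V] (hreg : (#X).IsRegular) (N : X → Set (X → V))
    (hN : ∀ ξ, NWDX (N ξ)) (s : Set (X × V)) (hs : CdX s) :
    ∃ g, SatX g s ∧ ∀ ξ, g ∉ N ξ := by
  classical
  obtain ⟨r, wo, hr⟩ := Cardinal.exists_ord_eq X
  have hX : ℵ₀ ≤ #X := hreg.aleph0_le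
  let F : X → Set (X × V) := wo.wf.fix (fun x ih =>
    extX (N x) (hN x) (s ∪ ⋃ (y : X) (h : r y x), ih y h))
  have hF : ∀ x, F x = extX (N x) (hN x) (s ∪ ⋃ (y : X) (_ : r y x), F y) := by
    intro x
    exact WellFounded.fix_eq _ _ x
  have hsub : ∀ x, (s ∪ ⋃ (y : X) (_ : r y x), F y) ⊆ F x := by
    intro x
    rw [hF x]
    exact subset_extX _ _ _
  have hsF : ∀ x, s ⊆ F x := fun x => subset_union_left.trans (hsub x)
  have hmono : ∀ x y, r y x → F y ⊆ F x := by
    intro x y hyx p hp
    apply hsub x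
    right
    simp only [mem_iUnion]
    exact ⟨y, hyx, hp⟩
  have hcd : ∀ x, CdX (s ∪ ⋃ (y : X) (_ : r y x), F y) ∧ CdX (F x) := by
    intro x
    induction x using wo.wf.induction with
    | _ x ih =>
      have h1 : CdX (s ∪ ⋃ (y : X) (_ : r y x), F y) := by
        constructor
        · intro z v w hv hw
          have key : ∀ v, (z, v) ∈ (s ∪ ⋃ (y : X) (_ : r y x), F y) →
              (z, v) ∈ s ∨ ∃ y, r y x ∧ (z, v) ∈ F y := by
            intro v hv
            rcases hv with hv | hv
            · exact Or.inl hv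
            · simp only [mem_iUnion] at hv
              obtain ⟨y, hy, h⟩ := hv
              exact Or.inr ⟨y, hy, h⟩
          rcases key v hv with h1 | ⟨y, hy, h1⟩
          · rcases key w hw with h2 | ⟨y', hy', h2⟩
            · exact hs.1 z v w h1 h2
            · exact (ih y' hy').2.1 z v w (hsF y' h1) h2
          · rcases key w hw with h2 | ⟨y', hy', h2⟩
            · exact (ih y hy).2.1 z v w h1 (hsF y h2)
            · rcases trichotomous_of r y y' with h | h | h
              · exact (ih y' hy').2.1 z v w (hmono y' y h h1) h2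
              · subst h
                exact (ih y hy).2.1 z v w h1 h2
              · exact (ih y hy).2.1 z v w h1 (hmono y y' h h2)
        · apply card_union_ltX hX hs.2
          have hle : #({y | r y x} : Set X) < #X := card_typein_lt x hr
          have := (card_biUnion_lt_iff_forall_of_isRegular (t := fun y (_ : y ∈ {y | r y x}) => F y)
            hreg hle).2 (fun y hy => (ih y hy).2.2)
          exact this
      refine ⟨h1, ?_⟩
      rw [hF x]
      exact cd_extX _ _ _ h1
  let U : Set (X × V) := s ∪ ⋃ x, F x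
  have hU : FnX U := by
    intro z v w hv hw
    have key : ∀ v, (z, v) ∈ U → ∃ y, (z, v) ∈ F y ∨ (z, v) ∈ s := by
      intro v hv
      rcases hv with hv | hv
      · exact ⟨z, Or.inr hv⟩
      · simp only [mem_iUnion] at hv
        obtain ⟨y, h⟩ := hv
        exact ⟨y, Or.inl h⟩
    have key2 : ∀ v, (z, v) ∈ U → ∃ y, (z, v) ∈ F y := by
      intro v hv
      obtain ⟨y, h | h⟩ := key v hv
      · exact ⟨y, h⟩
      · exact ⟨y, hsF y h⟩
    obtain ⟨y, h1⟩ := key2 v hv
    obtain ⟨y', h2⟩ := key2 w hw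
    rcases trichotomous_of r y y' with h | h | h
    · exact (hcd y').2.1 z v w (hmono y' y h h1) h2
    · subst h
      exact (hcd y).2.1 z v w h1 h2
    · exact (hcd y).2.1 z v w h1 (hmono y y' h h2)
  let g : X → V := fun x => if h : ∃ v, (x, v) ∈ U then Classical.choose h
    else Classical.arbitrary V
  have hg : SatX g U := by
    intro x v hx
    have h : ∃ v, (x, v) ∈ U := ⟨v, hx⟩
    show (if h : ∃ v, (x, v) ∈ U then Classical.choose h else Classical.arbitrary V) = v
    rw [dif_pos h]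
    exact hU x _ _ (Classical.choose_spec h) hx
  refine ⟨g, hg.mono subset_union_left, fun ξ hξ => ?_⟩
  have h1 : SatX g (F ξ) := hg.mono (fun p hp => Or.inr (mem_iUnion.2 ⟨ξ, hp⟩))
  rw [hF ξ] at h1
  exact avoid_extX _ _ _ (hcd ξ).1 g hξ h1

end CatX

open Pool.Agent.Helper63.INV Pool.Agent.Helper26.UM

theorem st_SB : ST_SB.{u, v} := by
  intro G _ X _ hreg hnot U hU s
  classical
  intro t _ hs hm
  have hX : ℵ₀ ≤ #X := hreg.aleph0_le
  haveI : Infinite X := infinite_iff.2 hX
  obtain ⟨N, hN1, hN2⟩ := hm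
  let Φ : X → (X → X) → (X → Bool) := fun j g x =>
    if x ∈ dm t then decide ((x, true) ∈ t) else decide (g x = j)
  have hΦt : ∀ j g, Sat (Φ j g) t := by
    intro j g x b hb
    have hx : x ∈ dm t := ⟨b, hb⟩
    show (if x ∈ dm t then decide ((x, true) ∈ t) else decide (g x = j)) = b
    rw [if_pos hx]
    cases b with
    | true => simpa using hb
    | false =>
      have : (x, true) ∉ t := fun h => by
        have := hs.1 x true false h hb
        exact absurd this (by decide)
      simpa using this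
  have hnwd : ∀ (j : X) (M : Set (X → Bool)), NWD M → NWDX {g : X → X | Φ j g ∈ M} := by
    intro j M hM s hs'
    let s' : Set (X × Bool) := t ∪ {p | p.1 ∉ dm t ∧ ∃ v, (p.1, v) ∈ s ∧ p.2 = decide (v = j)}
    have hs'1 : Cd s' := by
      constructor
      · intro x v w hv hw
        rcases hv with hv | ⟨hv1, a, ha, hv2⟩
        · rcases hw with hw | ⟨hw1, _⟩
          · exact hs.1 x v w hv hw
          · exact (hw1 ⟨v, hv⟩).elim
        · rcases hw with hw | ⟨hw1, b, hb, hw2⟩
          · exact (hv1 ⟨w, hw⟩).elim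
          · have : a = b := hs'.1 x a b ha hb
            subst this
            exact hv2.trans hw2.symm
      · apply card_union_lt hX hs.2
        have h : {p : X × Bool | p.1 ∉ dm t ∧ ∃ v, (p.1, v) ∈ s ∧ p.2 = decide (v = j)} ⊆
            (fun p : X × X => (p.1, decide (p.2 = j))) '' s := by
          rintro ⟨x, b⟩ ⟨_, v, hv, hb⟩
          exact ⟨(x, v), hv, by simp only at hb; rw [hb]⟩
        exact lt_of_le_of_lt ((mk_le_mk_of_subset h).trans mk_image_le) hs'.2
    obtain ⟨w, k1, k2, k3⟩ := hM s' hs'1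
    obtain ⟨j', hj'⟩ : ∃ j' : X, j' ≠ j := exists_ne j
    let u : Set (X × X) := s ∪ {p | (¬ ∃ v, (p.1, v) ∈ s) ∧ ∃ b, (p.1, b) ∈ w ∧
      p.2 = if b = true then j else j'}
    refine ⟨u, subset_union_left, ⟨?_, ?_⟩, ?_⟩
    · intro x v v' hv hv'
      rcases hv with hv | ⟨hv1, a, ha, hv2⟩
      · rcases hv' with hw | ⟨hw1, _⟩
        · exact hs'.1 x v v' hv hw
        · exact (hw1 ⟨v, hv⟩).elim
      · rcases hv' with hw | ⟨hw1, b, hb, hw2⟩
        · exact (hv1 ⟨v', hw⟩).elim
        · have : a = b := k2.1 x a b ha hb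
          subst this
          exact hv2.trans hw2.symm
    · apply card_union_ltX hX hs'.2
      have h : {p : X × X | (¬ ∃ v, (p.1, v) ∈ s) ∧ ∃ b, (p.1, b) ∈ w ∧
          p.2 = if b = true then j else j'} ⊆
          (fun p : X × Bool => (p.1, if p.2 = true then j else j')) '' w := by
        rintro ⟨x, v⟩ ⟨_, b, hb, hv⟩
        exact ⟨(x, b), hb, by simp only at hv; rw [hv]⟩
      exact lt_of_le_of_lt ((mk_le_mk_of_subset h).trans mk_image_le) k2.2
    · intro g hg hgu
      apply k3 _ hg
      intro x b hb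
      by_cases hx : x ∈ dm t
      · obtain ⟨c, hc⟩ := hx
        have h1 : Φ j g x = c := hΦt j g x c hc
        have h2 : b = c := k2.1 x b c hb (k1 (Or.inl hc))
        rw [h1, h2]
      · show (if x ∈ dm t then decide ((x, true) ∈ t) else decide (g x = j)) = b
        rw [if_neg hx]
        by_cases hx' : ∃ v, (x, v) ∈ s
        · obtain ⟨v, hv⟩ := hx'
          have h1 : g x = v := hgu x v (Or.inl hv)
          have h2 : b = decide (v = j) :=
            k2.1 x b _ hb (k1 (Or.inr ⟨hx, v, hv, rfl⟩))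
          rw [h1, h2]
        · have h1 : g x = if b = true then j else j' := hgu x _ (Or.inr ⟨hx', b, hb, rfl⟩)
          rw [h1]
          cases b with
          | true => simp
          | false => simpa using hj'
  have hc : #(X × X) = #X := by
    rw [← mul_def]
    exact mul_eq_self hX
  obtain ⟨q⟩ := Cardinal.eq.1 hc
  obtain ⟨g, hg, hgN⟩ := baireX (V := X) hreg
    (fun ζ => {g : X → X | Φ (q.symm ζ).1 g ∈ N (q.symm ζ).2})
    (fun ζ => hnwd _ _ (hN1 _))
    (∅ : Set (X × X)) ⟨fun x v w h => (Set.notMem_empty _ h).elim, by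
      rw [mk_eq_zero]
      exact lt_of_lt_of_le aleph0_pos hX⟩
  have hnotN : ∀ j ξ, Φ j g ∉ N ξ := by
    intro j ξ h
    apply hgN (q (j, ξ))
    show Φ (q.symm (q (j, ξ))).1 g ∈ N (q.symm (q (j, ξ))).2
    rw [Equiv.symm_apply_apply]
    exact h
  have hlarge : ∀ j, ∃ M : Set X → ℝ, IsIM G M ∧ 1 / 3 < M ({x | Φ j g x = true} \ U) := by
    intro j
    by_contra hcon
    push Not at hcon
    obtain ⟨ξ, hξ⟩ := hN2 (Φ j g) ⟨hcon, hΦt j g⟩
    exact hnotN j ξ hξ
  choose m hm1 hm2 using hlarge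
  apply hnot
  refine ⟨fun j => {x | x ∉ dm t ∧ g x = j} \ U, m, ?_, hm1, ?_⟩
  · intro i j hij
    rw [Set.disjoint_left]
    rintro x ⟨⟨_, h1⟩, _⟩ ⟨⟨_, h2⟩, _⟩
    exact hij (h1.symm.trans h2)
  · intro j
    have h2 : {x | Φ j g x = true} \ U = (({x | Φ j g x = true} ∩ dm t) \ U) ∪
        ({x | x ∉ dm t ∧ g x = j} \ U) := by
      ext x
      constructor
      · rintro ⟨hx, hxU⟩
        by_cases hxt : x ∈ dm t
        · exact Or.inl ⟨⟨hx, hxt⟩, hxU⟩
        · refine Or.inr ⟨⟨hxt, ?_⟩, hxU⟩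
          have h3 : (if x ∈ dm t then decide ((x, true) ∈ t) else decide (g x = j)) = true := hx
          rw [if_neg hxt] at h3
          exact of_decide_eq_true h3
      · rintro (⟨hx, hxU⟩ | ⟨⟨hxt, hx⟩, hxU⟩)
        · exact ⟨hx.1, hxU⟩
        · refine ⟨?_, hxU⟩
          show (if x ∈ dm t then decide ((x, true) ∈ t) else decide (g x = j)) = true
          rw [if_neg hxt]
          exact decide_eq_true hx
    have h3 : Disjoint (({x | Φ j g x = true} ∩ dm t) \ U) ({x | x ∉ dm t ∧ g x = j} \ U) := by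
      rw [Set.disjoint_left]
      rintro x ⟨⟨_, hx⟩, _⟩ ⟨⟨hx', _⟩, _⟩
      exact hx' hx
    have h4 : m j (({x | Φ j g x = true} ∩ dm t) \ U) < 1 / 12 := by
      apply hU _ _ _ _ (hm1 j)
      · exact lt_of_le_of_lt (mk_le_mk_of_subset
          (Set.diff_subset.trans inter_subset_right)) (card_dm_lt hs.2)
      · exact Set.disjoint_sdiff_left
    have h5 := hm2 j
    rw [h2, (hm1 j).2.2.1 _ _ h3] at h5
    show 1 / 12 ≤ m j ({x | x ∉ dm t ∧ g x = j} \ U)
    linarith

end Pool.Agent.Helper51.UM
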